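import Pool.Agent.N147.BN.Final

/-!
# Containments of Brill-Noether loci below the secant range

A curve of genus `g` over `ℂ` is given by its function field (`IsCurve K`), its line bundles by
local generators. `MM g r d` is the set of the curves of genus `g` which carry a `g^r_d`.

If `g > (d - r + 1)(d - r) / 2` then no `g^r_d` on a curve of genus `g` is very ample, as a projection
from `r - 2` points would be a plane curve of degree at most `d - r + 2` and of genus at least `g`.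
So there are points `p, q` with `h⁰(L(-p-q)) ≥ h⁰(L) - 1`; iterating one finds a `g^s_{d-2(r-s)}`.
This lies below the threshold of the question as soon as `r ≥ 2s - 1`.
-/

namespace Pool.Agent.Results.MP_eed2ef_ag.CompositeRange

open Pool.Agent.Helper395.CS hiding genus
open Pool.Agent.Helper395.BC

/-- A smooth projective curve over `ℂ`, given by its function field. -/
structure Curve where
  /-- the function field -/
  K : Type
  /-- it is a field -/
  field : Field K
  /-- it is an extension of `ℂ` -/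
  alg : Algebra ℂ K
  /-- it is finitely generated of transcendence degree one -/
  isCurve : IsCurve K

attribute [instance] Curve.field Curve.alg

/-- The curve carries a `g^r_d`: there is a line bundle `L` of degree `d` with `h⁰(L) ≥ r + 1`. -/
def HasSeries (C : Curve) (r d : ℤ) : Prop :=
  ∃ L : LineBundle C.K, L.degree = d ∧ r + 1 ≤ (Module.finrank ℂ (H0 L) : ℤ)

/-- The set `M^r_{g,d}` of the curves of genus `g` which carry a `g^r_d`. -/
def MM (g r d : ℤ) : Set Curve := {C | (genus C.K : ℤ) = g ∧ HasSeries C r d}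

/-- The Brill-Noether number. -/
def rho (g r d : ℤ) : ℤ := g - (r + 1) * (g - d + r)

/-- `M^r_{g,d}` is a Brill-Noether locus: `r ≥ 1`, `ρ(g,r,d) < 0` and it is nonempty. -/
def IsLocus (g r d : ℤ) : Prop := 1 ≤ r ∧ rho g r d < 0 ∧ (MM g r d).Nonempty

/-- The conditions of the question on `(g, r, s, d, e)`. -/
def Conditions (g r s d e : ℤ) : Prop :=
  d ≤ g - 1 ∧ e ≤ g - 1 ∧ r ≥ s + 1 ∧ s + 1 ≥ 3 ∧ IsLocus g r d ∧ IsLocus g s e ∧
    e < d - 2 * r + 2 + s + (r - 1) / 2

theorem containment {g r s d : ℤ} (hs : 1 ≤ s) (hrs : s ≤ r)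
    (hd : r ≤ d) (hgd : (d - r + 1) * (d - r) < 2 * g) :
    MM g r d ⊆ MM g s (d - 2 * (r - s)) := by
  rintro C ⟨hC, L, hL, hL'⟩
  have hg0 : genus C.K ≠ 0 := by
    intro h
    rw [h] at hC
    have h1 : 0 ≤ (d - r + 1) * (d - r) := mul_nonneg (by omega) (by omega)
    push_cast at hC
    omega
  refine ⟨hC, ?_⟩
  obtain ⟨r', rfl⟩ := Int.eq_ofNat_of_zero_le (show 0 ≤ r by omega)
  obtain ⟨s', rfl⟩ := Int.eq_ofNat_of_zero_le (show 0 ≤ s by omega)
  obtain ⟨d', rfl⟩ := Int.eq_ofNat_of_zero_le (show 0 ≤ d by omega)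
  obtain ⟨c, hc⟩ : ∃ c : ℕ, d' = r' + c := ⟨d' - r', by omega⟩
  have hch : (d' - r' + 1).choose 2 < genus C.K := by
    have e1 : d' - r' + 1 = c + 1 := by omega
    rw [e1]
    have h2 : ((c + 1).choose 2) * 2 = (c + 1) * c := by
      rw [Nat.choose_two_right, Nat.add_sub_cancel]
      exact Nat.div_mul_cancel (by
        have := (Nat.even_mul_succ_self c).two_dvd
        rwa [mul_comm] at this)
    have h3 : (((c + 1) * c : ℕ) : ℤ) < 2 * (genus C.K : ℤ) := by
      rw [hC]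
      have e2 : (d' : ℤ) - r' = c := by omega
      rw [e2] at hgd
      push_cast
      exact hgd
    omega
  obtain ⟨M, hM, hM'⟩ := Pool.Agent.N147.BN.descend C.isCurve hg0 (L := L) (r := r') (d := d') hL
    (by exact_mod_cast hL') hch (r' - s') (by omega)
  refine ⟨M, ?_, ?_⟩
  · rw [hM, hL]
    omega
  · have : r' - (r' - s') = s' := by omega
    rw [this] at hM'
    exact_mod_cast hM'

theorem nonempty {g r d : ℤ} (hg : 7 ≤ g) (hr : 0 ≤ r) (hd : 2 * r ≤ d) : (MM g r d).Nonempty := by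
  obtain ⟨g', rfl⟩ := Int.eq_ofNat_of_zero_le (show 0 ≤ g by omega)
  obtain ⟨r', rfl⟩ := Int.eq_ofNat_of_zero_le hr
  obtain ⟨K, iF, iA, hK, hgK, h⟩ := Pool.Agent.N147.BN.exists_hyp g' (by omega)
  have hg0 : genus K ≠ 0 := by omega
  obtain ⟨L, hL, hL'⟩ := h r'
  obtain ⟨M, hM, hM'⟩ := Pool.Agent.N147.BN.add_points hK hg0 L (d - 2 * r').toNat
  refine ⟨⟨K, iF, iA, hK⟩, by exact_mod_cast hgK, M, ?_, ?_⟩
  · rw [hM, hL]
    omega
  · have : r' + 1 ≤ Module.finrank ℂ (H0 M) := hL'.trans hM'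
    exact_mod_cast this

theorem rho_neg {g r d : ℤ} (hr : 2 ≤ r) (hd : 2 * r ≤ d)
    (hgd : (d - r + 1) * (d - r) < 2 * g) : rho g r d < 0 := by
  obtain ⟨c, hc⟩ : ∃ c, c = d - r := ⟨_, rfl⟩
  have hc2 : 2 ≤ c := by omega
  rw [← hc] at hgd
  have e : rho g r d = (r + 1) * c - r * g := by
    unfold rho
    rw [hc]
    ring
  have h1 : r * ((c + 1) * c) < r * (2 * g) := mul_lt_mul_of_pos_left hgd (by omega)
  have h2 : 0 ≤ c * (r * (c - 1) - 2) := by
    refine mul_nonneg (by omega) ?_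
    have : 2 * 1 ≤ r * (c - 1) := mul_le_mul hr (by omega) (by omega) (by omega)
    omega
  have h3 : r * ((c + 1) * c) - 2 * ((r + 1) * c) = c * (r * (c - 1) - 2) := by ring
  have h4 : r * (2 * g) = 2 * (r * g) := by ring
  rw [e]
  omega

theorem conditions {g r s d : ℤ} (hs : 2 ≤ s) (hrs : s + 1 ≤ r) (hrs' : 2 * s - 1 ≤ r)
    (hd : 2 * r ≤ d) (hgd : (d - r + 1) * (d - r) < 2 * g) :
    Conditions g r s d (d - 2 * (r - s)) := by
  obtain ⟨c, hc⟩ : ∃ c, c = d - r := ⟨_, rfl⟩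
  have hcr : r ≤ c := by omega
  have hg1 : 2 * c < g := by
    rw [← hc] at hgd
    have : 0 ≤ (c - 3) * c := mul_nonneg (by omega) (by omega)
    have h2 : (c + 1) * c = (c - 3) * c + 4 * c := by ring
    omega
  have hgd' : (d - 2 * (r - s) - s + 1) * (d - 2 * (r - s) - s) < 2 * g := by
    refine lt_of_le_of_lt (mul_le_mul ?_ ?_ ?_ ?_) hgd <;> omega
  have hinc := containment (g := g) (s := s) (by omega) (by omega) (by omega) hgd
  have hne : (MM g r d).Nonempty := nonempty (by omega) (by omega) hd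
  refine ⟨by omega, by omega, by omega, by omega, ⟨by omega, rho_neg (by omega) hd hgd, hne⟩,
    ⟨by omega, rho_neg hs (by omega) hgd', hne.mono hinc⟩, by omega⟩

/-- The statement of the question. -/
def Q1 : Prop := ∃ g₀ : ℤ, ∀ g : ℤ, g₀ ≤ g → ∀ r s d e : ℤ, Conditions g r s d e →
  ¬ MM g r d ⊆ MM g s e

/-- **The statement of the question is false, for every genus `g ≥ 7`.** Moreover
`M^r_{g,d} ⊆ M^s_{g,d-2(r-s)}` whenever `2g > (d-r+1)(d-r)` and `r ≥ s ≥ 1`, `d ≥ r`, and if moreover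
`r ≥ s+1 ≥ 3`, `r ≥ 2s-1` and `d ≥ 2r` then all conditions of the question hold. -/
theorem result : ¬ Q1 ∧
    (∀ g : ℤ, 7 ≤ g → ∃ r s d e : ℤ, Conditions g r s d e ∧ MM g r d ⊆ MM g s e) ∧
    ∀ g r s d : ℤ, 1 ≤ s → s ≤ r → r ≤ d → (d - r + 1) * (d - r) < 2 * g →
      MM g r d ⊆ MM g s (d - 2 * (r - s)) ∧
      (2 ≤ s → s + 1 ≤ r → 2 * s - 1 ≤ r → 2 * r ≤ d → Conditions g r s d (d - 2 * (r - s))) := by
  have h2 : ∀ g : ℤ, 7 ≤ g → ∃ r s d e : ℤ, Conditions g r s d e ∧ MM g r d ⊆ MM g s e :=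
    fun g hg => ⟨3, 2, 6, 6 - 2 * (3 - 2),
      conditions (by norm_num) (by norm_num) (by norm_num) (by norm_num) (by omega),
      containment (by norm_num) (by norm_num) (by norm_num) (by omega)⟩
  refine ⟨?_, h2, fun g r s d h1 h3 h4 h5 => ⟨containment h1 h3 h4 h5,
    fun a b c e => conditions a b c e h5⟩⟩
  rintro ⟨g₀, h⟩
  obtain ⟨r, s, d, e, hc, hi⟩ := h2 (max g₀ 7) (le_max_right _ _)
  exact h _ (le_max_left _ _) r s d e hc hi

end Pool.Agent.Results.MP_eed2ef_ag.CompositeRange
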